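import Pool.Agent.TH243.LC.Final

/-!
A one-dimensional continuum which is low₂-presented (hence low₄-presented) but not homeomorphic to
any computably presented Polish space. More generally every oracle that is not low presents such a
continuum.

The space consists of a solenoid, of one further solenoid for every number `n` outside a set `S`, and
of an arc from the first solenoid to each of the others. It has a continuous map to the circle
which is divisible by the `n`-th Fermat number exactly if `n ∈ S`, where `S` is the complement of the
jump of the oracle.
-/

set_option autoImplicit false

namespace Pool.Agent.Results.MP_f0c992_lc.OneDimContinuum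

open Pool.Agent.Helper227 Pool.Agent.TH243.LC
open Pool.Agent.W952.LP (zero DimLE Presented)

/-- There are an oracle `D` whose degree is low₂ and low₄ and a compact connected space of covering
dimension at most one which has a `D`-computable presentation and is not homeomorphic to any
computably presented Polish space; and such a space exists for every oracle `D` whose jump is not
computable in the jump of the empty oracle. -/
theorem result :
    (∃ D : ℕ → Bool, Low 2 D ∧ Low 4 D ∧
      ∃ (X : Type) (_ : TopologicalSpace X), CompactSpace X ∧ ConnectedSpace X ∧ DimLE X 1 ∧
        Presented D X ∧ ∀ (Y : Type) [TopologicalSpace Y], Presented zero Y → IsEmpty (X ≃ₜ Y)) ∧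
    ∀ D : ℕ → Bool, ¬ TLe (jump D) (jump zero) →
      ∃ (X : Type) (_ : TopologicalSpace X), CompactSpace X ∧ ConnectedSpace X ∧ DimLE X 1 ∧
        Presented D X ∧ ∀ (Y : Type) [TopologicalSpace Y], Presented zero Y → IsEmpty (X ≃ₜ Y) :=
  main

end Pool.Agent.Results.MP_f0c992_lc.OneDimContinuum
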